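import Pool.Agent.N522.ZG.Main

/-!
# MP_f01982_nt: Zagier's conjecture, surjectivity of `l_n` and norm relations
-/

open Pool.Agent.N522.ZG

/-- (1) Q1 for `F` is equivalent to the surjectivity of `l_n : ker δ_n ⊗ ℚ → K_{2n-1}(F) ⊗ ℚ`.
(2) If `K_{2n-1}(F) ⊗ ℚ` is spanned by the conjugates of the images of the groups of fields `E i`
for which Q1 holds, then Q1 holds for `F`.
(3) If `E` embeds in `F` and `d_n(E) = d_n(F)`, then Q1 for `E` implies Q1 for `F`.
(4) If `a`, `b` are commuting automorphisms of `F` with `a^p = b^p = 1`, `p` prime, then Q1 for the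
fixed fields of `b` and of `a b^j`, `0 ≤ j < p`, implies Q1 for `F`. -/
theorem Pool.Agent.Results.MP_f01982_nt.NormRelations.result :
    ∀ T : Theory, Facts T →
      (∀ F : T.Fld, Q1 F ↔ Function.Surjective (T.l F)) ∧
      (∀ (F : T.Fld) (ι : Type) (E : ι → T.Fld) (f : ∀ i, T.Emb (E i) F), (∀ i, Q1 (E i)) →
        (∀ w : T.W F, w ∈ Submodule.span ℚ {w' | ∃ (i : ι) (a : T.Aut F) (v : T.W (E i)),
          w' = T.actW a (T.mapW (f i) v)}) → Q1 F) ∧
      (∀ (E F : T.Fld) (_ : T.Emb E F), T.d E = T.d F → Q1 E → Q1 F) ∧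
      (∀ (F : T.Fld) (p : ℕ) (a b : T.Aut F), p.Prime → a * b = b * a → a ^ p = 1 → b ^ p = 1 →
        Q1 (T.fixed b) → (∀ j : ℕ, j < p → Q1 (T.fixed (a * b ^ j))) → Q1 F) := by
  intro T hT
  exact ⟨q1_iff hT, fun F ι E f hE h => q1_of_span hT F E f hE h,
    fun E F f hd hE => q1_of_d_eq hT E F f hd hE,
    fun F p a b hp hab ha hb hQb hQ => q1_of_rank_two hT F p hp a b hab ha hb hQb hQ⟩
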